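import Pool.Agent.Lib.MP_d0a18a_nt.ZP.All2

/-!
# Denominators of fractions with partial quotients at most 2: at least `N^0.687` up to `N`
-/

set_option autoImplicit false

namespace Pool.Agent.Results.MP_d0a18a_nt.PowerLowerBound

open Pool.Agent.Lib.MP_d0a18a_nt.ZP

/-- `d ∈ D_2`: `d > 0` and some fraction `b/d` in lowest terms is `[0; a_1, ..., a_k]` with all
partial quotients `a_i ∈ {1, 2}`. -/
def InD2 (d : ℕ) : Prop :=
  0 < d ∧ ∃ b : ℕ, Nat.Coprime b d ∧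
    ∃ l : List ℕ, (∀ a ∈ l, 1 ≤ a ∧ a ≤ 2) ∧
      ((b : ℚ) / (d : ℚ) = l.foldr (fun (a : ℕ) (x : ℚ) => 1 / ((a : ℚ) + x)) (0 : ℚ))

open Classical in
/-- For all large `N` at least `N^0.687` of the integers `1 ≤ d ≤ N` lie in `D_2`. -/
theorem result : ∃ N₀ : ℕ, ∀ N : ℕ, N₀ ≤ N →
    (N : ℝ) ^ (0.687 : ℝ) ≤ (((Finset.Icc 1 N).filter (fun d => InD2 d)).card : ℝ) := by
  obtain ⟨N0, h⟩ := gFI2
  refine ⟨⌈N0⌉₊, fun N hN => ?_⟩
  refine (h N ((Nat.le_ceil _).trans (by exact_mod_cast hN))).trans ?_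
  have hsub : Dn (N : ℝ) ⊆ (Finset.Icc 1 N).filter (fun d => InD2 d) := by
    intro d hd
    unfold Dn at hd
    rw [Finset.mem_filter, Finset.mem_range, Nat.floor_natCast] at hd
    obtain ⟨h1, w, rfl⟩ := hd
    rw [Finset.mem_filter, Finset.mem_Icc]
    have hK := K_pos w
    exact ⟨⟨hK, by omega⟩, hK, RESM.clean w⟩
  exact_mod_cast Finset.card_le_card hsub

end Pool.Agent.Results.MP_d0a18a_nt.PowerLowerBound
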